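import Mathlib

namespace Pool.Agent.Results.MP_2c9a54_an.Positive

open Finset

lemma per_bound (k : ℕ) (hk : 1 ≤ k) (f : ℕ → ℝ) (hf : ∀ n, 0 < f n)
    (hper : ∀ n, f (n + k) = f n) : ∃ G, 0 < G ∧ ∀ n, f n ≤ G := by
  refine ⟨∑ r ∈ range k, f r, sum_pos (fun r _ => hf r) ⟨0, mem_range.2 hk⟩, fun n => ?_⟩
  have hp : Function.Periodic f k := hper
  rw [← hp.map_mod_nat n]
  exact single_le_sum (fun r _ => (hf r).le) (mem_range.2 (Nat.mod_lt n hk))

lemma pos_sol (B y : ℕ → ℝ) (hB : ∀ n, 0 < B n) (h0 : 0 < y 0) (h1 : 0 < y 1)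
    (hy : ∀ n, y (n + 2) = 1 / (B n * y (n + 1) + y n)) : ∀ n, 0 < y n := by
  have : ∀ n, 0 < y n ∧ 0 < y (n + 1) := by
    intro n
    induction n with
    | zero => exact ⟨h0, h1⟩
    | succ n ih =>
      refine ⟨ih.2, ?_⟩
      have := ih.1; have := ih.2; have := hB n
      rw [hy]; positivity
  exact fun n => (this n).1

lemma upper (B y : ℕ → ℝ) (G b : ℝ) (hB : ∀ n, 0 < B n) (hG : ∀ n, B n ≤ G)
    (hb : ∀ n, 1 / B n ≤ b) (hp : ∀ n, 0 < y n)
    (hy : ∀ n, y (n + 2) = 1 / (B n * y (n + 1) + y n)) (n : ℕ) :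
    y (n + 5) ≤ y (n + 2) / (B (n + 3) + 1 / B (n + 1)) + ((b ^ 2 + G * b) * G + 1 + (G + 1) * b) := by
  have e : ∀ n, y (n + 2) * (B n * y (n + 1) + y n) = 1 := by
    intro n; have := hp n; have := hp (n + 1); have := hB n; rw [hy]; field_simp
  have hb' : ∀ n, 1 ≤ b * B n := fun n => (div_le_iff₀ (hB n)).1 (hb n)
  have hb0 : 0 < b := lt_of_lt_of_le (one_div_pos.2 (hB 0)) (hb 0)
  have hG0 : 0 < G := lt_of_lt_of_le (hB 0) (hG 0)
  have e0 := e n
  have e1 := e (n + 1)
  have e2 := e (n + 2)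
  have e3 := e (n + 3)
  have p0 := hp n
  have p1 := hp (n + 1)
  have p2 := hp (n + 2)
  have p3 := hp (n + 3)
  have p4 := hp (n + 4)
  have p5 := hp (n + 5)
  have B0 := hB n
  have B1 := hB (n + 1)
  have B2 := hB (n + 2)
  have B3 := hB (n + 3)
  simp only [add_assoc, Nat.reduceAdd] at e1 e2 e3
  have hc : 0 < B (n + 3) + 1 / B (n + 1) := by positivity
  have hK1 : 0 < b ^ 2 + G * b := by positivity
  by_cases ha : 1 ≤ y (n + 2)
  · have s1 : B n * y (n + 1) ≤ 1 := by
      nlinarith [mul_pos p2 p0, mul_le_mul_of_nonneg_right ha (mul_pos B0 p1).le]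
    have s1' : y (n + 1) ≤ b := by nlinarith [hb' n]
    have s3 : B (n + 1) * y (n + 3) ≤ 1 := by
      nlinarith [mul_pos p3 p1, mul_le_mul_of_nonneg_right ha (mul_pos B1 p3).le]
    have s3' : y (n + 3) ≤ b := by nlinarith [hb' (n + 1)]
    set T := y (n + 2) + (b ^ 2 + G * b) with hT
    have hT0 : 0 < T := by positivity
    have t3 : 1 / B (n + 1) ≤ y (n + 3) * T := by
      rw [div_le_iff₀ B1]
      have : y (n + 1) ≤ B (n + 1) * (b ^ 2 + G * b) := by
        nlinarith [hb' (n + 1), mul_pos B1 (mul_pos hG0 hb0)]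
      nlinarith [mul_le_mul_of_nonneg_left this p3.le]
    have t4 : 1 ≤ y (n + 4) * T := by
      have : B (n + 2) * y (n + 3) ≤ b ^ 2 + G * b := by
        nlinarith [mul_le_mul (hG (n + 2)) s3' p3.le hG0.le, sq_nonneg b]
      nlinarith [mul_le_mul_of_nonneg_left this p4.le]
    have t5 : y (n + 5) * (B (n + 3) + 1 / B (n + 1)) ≤ T := by
      have : B (n + 3) + 1 / B (n + 1) ≤ (B (n + 3) * y (n + 4) + y (n + 3)) * T := by
        nlinarith [mul_le_mul_of_nonneg_left t4 B3.le]
      calc _ ≤ y (n + 5) * ((B (n + 3) * y (n + 4) + y (n + 3)) * T) :=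
            mul_le_mul_of_nonneg_left this p5.le
        _ = T := by rw [← mul_assoc, e3, one_mul]
    have t6 : (b ^ 2 + G * b) / (B (n + 3) + 1 / B (n + 1)) ≤ (b ^ 2 + G * b) * G := by
      rw [div_le_iff₀ hc]
      have h1 : 1 ≤ G * (1 / B (n + 1)) := by
        rw [mul_one_div, one_le_div B1]; exact hG _
      nlinarith [mul_le_mul_of_nonneg_left h1 hK1.le, mul_pos hK1 (mul_pos hG0 B3)]
    have t7 : y (n + 5) ≤ T / (B (n + 3) + 1 / B (n + 1)) := (le_div_iff₀ hc).2 t5
    rw [hT, add_div] at t7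
    have : 0 < (G + 1) * b := by positivity
    linarith
  · push Not at ha
    have q0 : 0 ≤ y (n + 2) / (B (n + 3) + 1 / B (n + 1)) := by positivity
    have q1 : 0 < (b ^ 2 + G * b) * G := by positivity
    have q2 : 0 < (G + 1) * b := by positivity
    by_cases h3 : 1 ≤ y (n + 3)
    · have : y (n + 5) ≤ 1 := by
        nlinarith [mul_pos p5 (mul_pos B3 p4), mul_le_mul_of_nonneg_left h3 p5.le]
      linarith
    · push Not at h3
      have u1 : B (n + 2) * y (n + 3) + y (n + 2) ≤ G + 1 := by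
        nlinarith [hG (n + 2)]
      have u2 : 1 ≤ y (n + 4) * (G + 1) := by
        nlinarith [mul_le_mul_of_nonneg_left u1 p4.le]
      have u3 : y (n + 5) * (B (n + 3) * y (n + 4)) ≤ 1 := by nlinarith [mul_pos p5 p3]
      have u4 : 1 ≤ (B (n + 3) * y (n + 4)) * ((G + 1) * b) := by
        nlinarith [mul_le_mul (hb' (n + 3)) u2 zero_le_one (mul_pos hb0 B3).le]
      have : y (n + 5) ≤ (G + 1) * b := by
        nlinarith [mul_le_mul_of_nonneg_left u4 p5.le, mul_le_mul_of_nonneg_right u3 q2.le]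
      linarith

lemma lower (B y : ℕ → ℝ) (G b M : ℝ) (hB : ∀ n, 0 < B n) (hG : ∀ n, B n ≤ G)
    (hb : ∀ n, 1 / B n ≤ b) (hp : ∀ n, 0 < y n) (hM : ∀ n, y n ≤ M)
    (hy : ∀ n, y (n + 2) = 1 / (B n * y (n + 1) + y n)) :
    ∃ t : ℝ, 1 < t ∧ ∀ n, t * y (n + 3) ≤ (B (n + 4) + 1 / B (n + 2)) * y (n + 6) := by
  have e : ∀ n, y (n + 2) * (B n * y (n + 1) + y n) = 1 := by
    intro n; have := hp n; have := hp (n + 1); have := hB n; rw [hy]; field_simp
  have hb' : ∀ n, 1 ≤ b * B n := fun n => (div_le_iff₀ (hB n)).1 (hb n)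
  have hb0 : 0 < b := lt_of_lt_of_le (one_div_pos.2 (hB 0)) (hb 0)
  have hG0 : 0 < G := lt_of_lt_of_le (hB 0) (hG 0)
  have hM0 : 0 < M := lt_of_lt_of_le (hp 0) (hM 0)
  have low : ∀ n, 1 ≤ y (n + 2) * ((G + 1) * M) := by
    intro n
    have : B n * y (n + 1) + y n ≤ (G + 1) * M := by
      nlinarith [mul_le_mul (hG n) (hM (n + 1)) (hp _).le hG0.le, hM n]
    nlinarith [mul_le_mul_of_nonneg_left this (hp (n + 2)).le, e n]
  set η := 1 / ((G + 1) * M * M * (G + b)) with hη
  have hη0 : 0 < η := by positivity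
  have hη1 : η * ((G + 1) * M * M * (G + b)) = 1 := by rw [hη]; field_simp
  have key : ∀ n m, η * (G + b) * y m ≤ y (n + 2) := by
    intro n m
    have h1 := mul_le_mul_of_nonneg_left (hM m) (mul_pos hη0 (add_pos hG0 hb0)).le
    have h2 := mul_le_mul_of_nonneg_left (low n) (mul_pos (mul_pos hη0 (add_pos hG0 hb0)) hM0).le
    have h3 : η * (G + b) * M * (y (n + 2) * ((G + 1) * M)) = y (n + 2) := by
      linear_combination y (n + 2) * hη1
    linarith
  refine ⟨1 + η, by linarith, fun n => ?_⟩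
  have e2 := e (n + 2)
  have e3 := e (n + 3)
  have e4 := e (n + 4)
  simp only [add_assoc, Nat.reduceAdd] at e2 e3 e4
  have p3 := hp (n + 3)
  have p4 := hp (n + 4)
  have p5 := hp (n + 5)
  have p6 := hp (n + 6)
  have B2 := hB (n + 2)
  have B3 := hB (n + 3)
  have B4 := hB (n + 4)
  have k2 := key n (n + 3)
  have k4 := key (n + 2) (n + 3)
  simp only [add_assoc, Nat.reduceAdd] at k4
  have hy3 := mul_pos hη0 p3
  have a4 : (1 + η) * y (n + 3) * y (n + 4) ≤ 1 / B (n + 2) := by
    rw [le_div_iff₀ B2]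
    have : η * y (n + 3) * B (n + 2) ≤ y (n + 2) := by
      nlinarith [mul_le_mul_of_nonneg_left (hG (n + 2)) hy3.le, mul_pos hy3 hb0]
    nlinarith [mul_le_mul_of_nonneg_left this p4.le]
  have a5 : (1 + η) * y (n + 3) * y (n + 5) ≤ 1 := by
    have h1 : η * b * y (n + 3) ≤ y (n + 4) := by nlinarith [mul_pos hy3 hG0]
    have : η * y (n + 3) ≤ B (n + 3) * y (n + 4) := by
      nlinarith [mul_le_mul_of_nonneg_left h1 B3.le, mul_le_mul_of_nonneg_left (hb' (n + 3)) hy3.le]
    nlinarith [mul_le_mul_of_nonneg_left this p5.le]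
  have a6 : (1 + η) * y (n + 3) * (B (n + 4) * y (n + 5) + y (n + 4)) ≤ B (n + 4) + 1 / B (n + 2) := by
    nlinarith [mul_le_mul_of_nonneg_left a5 B4.le]
  calc (1 + η) * y (n + 3) = (1 + η) * y (n + 3) * (B (n + 4) * y (n + 5) + y (n + 4)) * y (n + 6) := by
        rw [mul_assoc ((1 + η) * y (n + 3)), mul_comm _ (y (n + 6)), e4, mul_one]
    _ ≤ _ := mul_le_mul_of_nonneg_right a6 p6.le

lemma prod_shift (k : ℕ) (f : ℕ → ℝ) (hper : ∀ n, f (n + k) = f n) (i m : ℕ) :
    ∏ j ∈ range k, f (i + m * k + 3 * j) = ∏ j ∈ range k, f (i + 3 * j) := by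
  have hp : Function.Periodic f k := hper
  refine prod_congr rfl fun j _ => ?_
  have := hp.nat_mul m (i + 3 * j)
  rw [← this]; congr 1; push_cast; ring

lemma prod_coprime (k : ℕ) (hk : 1 ≤ k) (h3 : ¬ 3 ∣ k) (f : ℕ → ℝ) (hper : ∀ n, f (n + k) = f n)
    (i : ℕ) : ∏ j ∈ range k, f (i + 3 * j) = ∏ j ∈ range k, f j := by
  have hp : Function.Periodic f k := hper
  have hc : Nat.Coprime k 3 := ((Nat.Prime.coprime_iff_not_dvd Nat.prime_three).2 h3).symm
  have hm : Set.MapsTo (fun j => (i + 3 * j) % k) (range k : Set ℕ) (range k : Set ℕ) := by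
    intro j _; simpa using Nat.mod_lt _ hk
  have hi : Set.InjOn (fun j => (i + 3 * j) % k) (range k : Set ℕ) := by
    intro x hx z hz h
    have h1 : i + 3 * x ≡ i + 3 * z [MOD k] := h
    have h2 : x ≡ z [MOD k] := Nat.ModEq.cancel_left_of_coprime hc (Nat.ModEq.add_left_cancel' i h1)
    exact Nat.ModEq.eq_of_lt_of_lt h2 (by simpa using hx) (by simpa using hz)
  exact prod_nbij (fun j => (i + 3 * j) % k) (fun j hj => hm hj) hi
    (surjOn_of_injOn_of_card_le _ hm hi le_rfl) (fun j _ => (hp.map_mod_nat _).symm)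

theorem main (k : ℕ) (hk : 1 ≤ k) (B : ℕ → ℝ) (hB : ∀ n, 0 < B n)
    (hper : ∀ n, B (n + k) = B n) :
    (∀ y : ℕ → ℝ, 0 < y 0 → 0 < y 1 → (∀ n, y (n + 2) = 1 / (B n * y (n + 1) + y n)) →
      (BddAbove (Set.range y) ↔
        ∀ i, 1 < ∏ j ∈ range k, (B (i + 3 * j + 2) + 1 / B (i + 3 * j)))) ∧
    (¬ 3 ∣ k → ∀ i, 1 < ∏ j ∈ range k, (B (i + 3 * j + 2) + 1 / B (i + 3 * j))) := by
  set c : ℕ → ℝ := fun n => B (n + 2) + 1 / B n with hc
  have hc0 : ∀ n, 0 < c n := fun n => by have := hB n; have := hB (n + 2); positivity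
  have hcper : ∀ n, c (n + k) = c n := fun n => by
    simp only [hc]; rw [hper, show n + k + 2 = n + 2 + k by ring, hper]
  obtain ⟨G, hG0, hG⟩ := per_bound k hk B hB hper
  obtain ⟨b, hb0, hb⟩ := per_bound k hk (fun n => 1 / B n) (fun n => one_div_pos.2 (hB n))
    (fun n => by simp only [hper])
  change (∀ y : ℕ → ℝ, 0 < y 0 → 0 < y 1 → (∀ n, y (n + 2) = 1 / (B n * y (n + 1) + y n)) →
      (BddAbove (Set.range y) ↔ ∀ i, 1 < ∏ j ∈ range k, c (i + 3 * j))) ∧
    (¬ 3 ∣ k → ∀ i, 1 < ∏ j ∈ range k, c (i + 3 * j))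
  refine ⟨fun y h0 h1 hy => ?_, fun h3 i => ?_⟩
  · have hp := pos_sol B y hB h0 h1 hy
    constructor
    · rintro ⟨M, hM⟩ i
      have hM' : ∀ n, y n ≤ M := fun n => hM ⟨n, rfl⟩
      obtain ⟨t, ht, hl⟩ := lower B y G b M hB hG hb hp hM' hy
      by_contra hle
      push Not at hle
      have step : ∀ s r, t ^ s * y (r + 3) ≤ (∏ j ∈ range s, c (r + 2 + 3 * j)) * y (r + 3 + 3 * s) := by
        intro s r
        induction s with
        | zero => simp
        | succ s ih =>
          have h := hl (r + 3 * s)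
          have hP : 0 < ∏ j ∈ range s, c (r + 2 + 3 * j) := prod_pos fun j _ => hc0 _
          have e1 : c (r + 2 + 3 * s) = B (r + 3 * s + 4) + 1 / B (r + 3 * s + 2) := by
            simp only [hc]; congr 2 <;> ring_nf
          rw [prod_range_succ, pow_succ, e1, show r + 3 + 3 * (s + 1) = r + 3 * s + 6 by ring]
          rw [show r + 3 + 3 * s = r + 3 * s + 3 by ring] at ih
          nlinarith [mul_le_mul_of_nonneg_left h hP.le,
            mul_le_mul_of_nonneg_left ih (by linarith : (0:ℝ) ≤ t)]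
      obtain ⟨r, hr⟩ : ∃ r, r + 2 = i + 2 * k := ⟨i + 2 * k - 2, by omega⟩
      have grow : ∀ m, (t ^ k) ^ m * y (r + 3) ≤ y (r + 3 * m * k + 3) := by
        intro m
        induction m with
        | zero => simp
        | succ m ih =>
          have h := step k (r + 3 * m * k)
          have e1 : ∏ j ∈ range k, c (r + 3 * m * k + 2 + 3 * j) = ∏ j ∈ range k, c (i + 3 * j) := by
            rw [← prod_shift k c hcper i (3 * m + 2)]
            refine prod_congr rfl fun j _ => ?_
            congr 1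
            have : (3 * m + 2) * k = 3 * m * k + 2 * k := by ring
            omega
          rw [e1, show r + 3 * m * k + 3 + 3 * k = r + 3 * (m + 1) * k + 3 by ring] at h
          have htk : 0 ≤ t ^ k := by positivity
          rw [pow_succ]
          nlinarith [mul_le_mul_of_nonneg_left ih htk,
            mul_le_mul_of_nonneg_right hle (hp (r + 3 * (m + 1) * k + 3)).le]
      obtain ⟨m, hm⟩ := pow_unbounded_of_one_lt (M / y (r + 3)) (one_lt_pow₀ ht (by omega : k ≠ 0))
      rw [div_lt_iff₀ (hp _)] at hm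
      linarith [grow m, hM' (r + 3 * m * k + 3)]
    · intro hP
      set K := (b ^ 2 + G * b) * G + 1 + (G + 1) * b with hK
      have hK0 : 0 < K := by positivity
      have step : ∀ s, ∃ L, 0 ≤ L ∧ ∀ r, y (r + 2 + 3 * s)
          ≤ y (r + 2) / (∏ j ∈ range s, c (r + 1 + 3 * j)) + L := by
        intro s
        induction s with
        | zero => exact ⟨0, le_rfl, fun r => by simp⟩
        | succ s ih =>
          obtain ⟨L, hL, ih⟩ := ih
          refine ⟨L * G + K, by positivity, fun r => ?_⟩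
          have h := upper B y G b hB hG hb hp hy (r + 3 * s)
          have e1 : c (r + 1 + 3 * s) = B (r + 3 * s + 3) + 1 / B (r + 3 * s + 1) := by
            simp only [hc]; congr 2 <;> ring_nf
          rw [← e1, ← hK] at h
          have ih := ih r
          rw [show r + 2 + 3 * s = r + 3 * s + 2 by ring] at ih
          rw [prod_range_succ, show r + 2 + 3 * (s + 1) = r + 3 * s + 5 by ring, ← div_div]
          have h2 := div_le_div_of_nonneg_right ih (hc0 (r + 1 + 3 * s)).le
          rw [add_div] at h2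
          have h3 : L / c (r + 1 + 3 * s) ≤ L * G := by
            rw [div_le_iff₀ (hc0 _), mul_assoc]
            refine le_mul_of_one_le_right hL ?_
            have h1 : 1 ≤ G * (1 / B (r + 1 + 3 * s)) := by
              rw [mul_one_div, one_le_div (hB _)]; exact hG _
            have := mul_pos hG0 (hB (r + 1 + 3 * s + 2))
            simp only [hc]; nlinarith
          linarith
      obtain ⟨L, hL, hs⟩ := step k
      set Pi : ℕ → ℝ := fun i => ∏ j ∈ range k, c (i + 3 * j) with hPi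
      set d : ℕ → ℝ := fun r => y (r + 2) + L * Pi (r + 1) / (Pi (r + 1) - 1) with hd
      have hd0 : ∀ r, 0 ≤ L * Pi (r + 1) / (Pi (r + 1) - 1) := fun r => by
        have : 1 < Pi (r + 1) := hP _
        exact div_nonneg (mul_nonneg hL (by linarith)) (by linarith)
      have chain : ∀ r m, y (r + 3 * m * k + 2) ≤ d r := by
        intro r m
        induction m with
        | zero => simp only [hd]; simpa using hd0 r
        | succ m ih =>
          have h := hs (r + 3 * m * k)
          have e1 : ∏ j ∈ range k, c (r + 3 * m * k + 1 + 3 * j) = Pi (r + 1) := by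
            simp only [hPi]
            rw [← prod_shift k c hcper (r + 1) (3 * m)]
            refine prod_congr rfl fun j _ => ?_
            congr 1; ring
          rw [e1, show r + 3 * m * k + 2 + 3 * k = r + 3 * (m + 1) * k + 2 by ring] at h
          have h1 : 1 < Pi (r + 1) := hP _
          have h2 := div_le_div_of_nonneg_right ih (by linarith : 0 ≤ Pi (r + 1))
          have h3 : d r / Pi (r + 1) + L ≤ d r := by
            have h4 : y (r + 2) / Pi (r + 1) ≤ y (r + 2) := div_le_self (hp _).le h1.le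
            have h5 : L * Pi (r + 1) / (Pi (r + 1) - 1) / Pi (r + 1) + L
                = L * Pi (r + 1) / (Pi (r + 1) - 1) := by
              have : Pi (r + 1) - 1 ≠ 0 := by linarith
              have : Pi (r + 1) ≠ 0 := by linarith
              field_simp; ring
            simp only [hd]; rw [add_div]; linarith
          linarith
      have hS : 0 ≤ ∑ r ∈ range (3 * k), d r :=
        sum_nonneg fun r _ => add_nonneg (hp _).le (hd0 r)
      refine ⟨y 0 + y 1 + ∑ r ∈ range (3 * k), d r, ?_⟩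
      rintro _ ⟨n, rfl⟩
      rcases n with _ | _ | n
      · linarith
      · simp only [zero_add]; linarith
      · have h := chain (n % (3 * k)) (n / (3 * k))
        have e : n % (3 * k) + 3 * (n / (3 * k)) * k = n := by
          have := Nat.mod_add_div n (3 * k)
          rw [show 3 * (n / (3 * k)) * k = 3 * k * (n / (3 * k)) by ring]; exact this
        rw [e] at h
        have h2 : d (n % (3 * k)) ≤ ∑ r ∈ range (3 * k), d r :=
          single_le_sum (f := d) (fun r _ => add_nonneg (hp _).le (hd0 r))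
            (mem_range.2 (Nat.mod_lt _ (by omega)))
        linarith
  · have hP : 0 < ∏ j ∈ range k, c (i + 3 * j) := prod_pos fun j _ => hc0 _
    have hQ : 0 < ∏ j ∈ range k, B j := prod_pos fun j _ => hB _
    have h1 : ∏ j ∈ range k, (4 * B (i + 2 + 3 * j)) ≤
        ∏ j ∈ range k, (c (i + 3 * j) ^ 2 * B (i + 3 * j)) := by
      refine prod_le_prod (fun j _ => by have := hB (i + 2 + 3 * j); positivity) fun j _ => ?_
      simp only [hc]
      rw [show i + 2 + 3 * j = i + 3 * j + 2 by ring]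
      have h := hB (i + 3 * j)
      have e : 1 / B (i + 3 * j) * B (i + 3 * j) = 1 := by field_simp
      have e2 := mul_nonneg (sq_nonneg (B (i + 3 * j + 2) - 1 / B (i + 3 * j))) h.le
      generalize 1 / B (i + 3 * j) = u at e e2 ⊢
      have e3 : B (i + 3 * j + 2) * (u * B (i + 3 * j)) = B (i + 3 * j + 2) := by rw [e, mul_one]
      nlinarith
    rw [prod_mul_distrib, prod_mul_distrib, prod_coprime k hk h3 B hper,
      prod_coprime k hk h3 B hper, prod_pow, prod_const, card_range] at h1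
    have h2 := le_of_mul_le_mul_right h1 hQ
    have h4 : (1:ℝ) < 4 ^ k := one_lt_pow₀ (by norm_num) (by omega)
    nlinarith

/-- The case of positive coefficients.  Here `y n` stands for `x_{n-1}`, so that the
recurrence `x_{n+1} = 1 / (B_n x_n + x_{n-1})` reads `y (n+2) = 1 / (B n * y (n+1) + y n)`. -/
theorem result (k : ℕ) (hk : 1 ≤ k) (B : ℕ → ℝ) (hB : ∀ n, 0 < B n)
    (hper : ∀ n, B (n + k) = B n) (y : ℕ → ℝ) (h0 : 0 < y 0) (h1 : 0 < y 1)
    (hy : ∀ n, y (n + 2) = 1 / (B n * y (n + 1) + y n)) :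
    BddAbove (Set.range y) ↔
      (3 ∣ k → ∀ i, 1 < ∏ j ∈ range k, (B (i + 3 * j + 2) + 1 / B (i + 3 * j))) := by
  obtain ⟨m1, m2⟩ := main k hk B hB hper
  rw [m1 y h0 h1 hy]
  refine ⟨fun h _ => h, fun h => ?_⟩
  by_cases h3 : 3 ∣ k
  · exact h h3
  · exact m2 h3

end Pool.Agent.Results.MP_2c9a54_an.Positive
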